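import Mathlib

/-!
Every deterministic mechanism for ordinal metric matching has max-distortion at least `√(n/8)`.
-/

namespace Pool.Agent.Results.MP_b944bf_lc.Unbounded

/-- A profile on `n` agents and `n` items: agent `a` ranks the items, and `σ a b` is the position
of the item `b` in the ranking of `a` (position `0` is the best one), so agent `a` strictly
prefers `b` to `b'` exactly when `σ a b < σ a b'`. -/
abbrev Profile (n : ℕ) : Type := Fin n → Equiv.Perm (Fin n)

/-- A deterministic matching mechanism: for each `n` it maps every profile to a perfect matching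
between agents and items, that is, to a bijection. -/
abbrev Mechanism : Type := ∀ n : ℕ, Profile n → Equiv.Perm (Fin n)

/-- `d` is a pseudometric on the disjoint union of agents (`Sum.inl`) and items (`Sum.inr`) which
is consistent with the profile `σ`. -/
structure Consistent {n : ℕ} (σ : Profile n) (d : Fin n ⊕ Fin n → Fin n ⊕ Fin n → ℝ) : Prop where
  self : ∀ x, d x x = 0
  comm : ∀ x y, d x y = d y x
  triangle : ∀ x y z, d x z ≤ d x y + d y z
  rank : ∀ a b b', σ a b < σ a b' → d (Sum.inl a) (Sum.inr b) ≤ d (Sum.inl a) (Sum.inr b')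

/-- The max-cost of the perfect matching `M` under `d`. -/
noncomputable def cost {n : ℕ} (M : Equiv.Perm (Fin n))
    (d : Fin n ⊕ Fin n → Fin n ⊕ Fin n → ℝ) : ℝ :=
  ⨆ a : Fin n, d (Sum.inl a) (Sum.inr (M a))

/-- The least max-cost of a perfect matching under `d`. -/
noncomputable def OPT {n : ℕ} (d : Fin n ⊕ Fin n → Fin n ⊕ Fin n → ℝ) : ℝ :=
  ⨅ M : Equiv.Perm (Fin n), cost M d

/-- The max-distortion of the mechanism `f` on `n` agents is at most `α`. -/
def DistortionAtMost (f : Mechanism) (n : ℕ) (α : ℝ) : Prop :=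
  ∀ (σ : Profile n) (d : Fin n ⊕ Fin n → Fin n ⊕ Fin n → ℝ),
    Consistent σ d → cost (f n σ) d ≤ α * OPT d

/-! ### General facts -/

lemma le_cost {n : ℕ} (M : Equiv.Perm (Fin n)) (d : Fin n ⊕ Fin n → Fin n ⊕ Fin n → ℝ)
    (a : Fin n) : d (Sum.inl a) (Sum.inr (M a)) ≤ cost M d :=
  le_ciSup (f := fun a => d (Sum.inl a) (Sum.inr (M a))) (Set.finite_range _).bddAbove a

lemma cost_le {n : ℕ} [Nonempty (Fin n)] (M : Equiv.Perm (Fin n))
    (d : Fin n ⊕ Fin n → Fin n ⊕ Fin n → ℝ) (c : ℝ)
    (h : ∀ a, d (Sum.inl a) (Sum.inr (M a)) ≤ c) : cost M d ≤ c :=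
  ciSup_le h

lemma OPT_le {n : ℕ} (d : Fin n ⊕ Fin n → Fin n ⊕ Fin n → ℝ) (M : Equiv.Perm (Fin n)) :
    OPT d ≤ cost M d :=
  ciInf_le (Set.finite_range _).bddBelow M

lemma le_OPT {n : ℕ} (d : Fin n ⊕ Fin n → Fin n ⊕ Fin n → ℝ) (c : ℝ)
    (h : ∀ M : Equiv.Perm (Fin n), c ≤ cost M d) : c ≤ OPT d :=
  le_ciInf h

/-- Ranking by a key. -/
lemma exists_ranking {n : ℕ} (κ : Fin n → ℕ) :
    ∃ ρ : Equiv.Perm (Fin n), ∀ b b', ρ b < ρ b' → κ b ≤ κ b' := by
  refine ⟨(Tuple.sort κ)⁻¹, fun b b' h => ?_⟩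
  have := Tuple.monotone_sort κ h.le
  simpa [Function.comp] using this

/-- Truncated line metrics are pseudometrics. -/
lemma trunc_triangle (L a b c : ℝ) (hL : 0 ≤ L) :
    min L |a - c| ≤ min L |a - b| + min L |b - c| := by
  have h := abs_sub_le a b c
  have h1 := abs_nonneg (a - b)
  have h2 := abs_nonneg (b - c)
  rcases le_total L |a - b| with h3 | h3 <;> rcases le_total L |b - c| with h4 | h4 <;>
    rcases le_total L |a - c| with h5 | h5 <;> simp only [min_eq_left, min_eq_right, h3, h4, h5] <;>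
    linarith

/-- The distortion is at least one. -/
lemma one_le {f : Mechanism} {n : ℕ} (hn : 1 ≤ n) {C : ℝ} (hf : DistortionAtMost f n C) :
    1 ≤ C := by
  have : NeZero n := ⟨by omega⟩
  let d : Fin n ⊕ Fin n → Fin n ⊕ Fin n → ℝ := fun x y => if x = y then 0 else 1
  have hd : Consistent (fun _ => 1 : Profile n) d := by
    refine ⟨fun x => by simp [d], fun x y => by simp [d, eq_comm], fun x y z => ?_, ?_⟩
    · simp only [d]
      split_ifs <;> simp_all
    · intro a b b' _
      simp [d]
  have h1 : ∀ M : Equiv.Perm (Fin n), cost M d = 1 := by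
    intro M
    apply le_antisymm
    · apply cost_le
      intro a
      simp [d]
    · have := le_cost M d 0
      simpa [d] using this
  have h2 : OPT d = 1 := by
    apply le_antisymm
    · rw [← h1 1]
      exact OPT_le d 1
    · apply le_OPT
      intro M
      rw [h1]
  have h3 := hf _ d hd
  rw [h1, h2] at h3
  linarith

/-! ### The stretched line -/

/-- The convex bump. -/
noncomputable def bump (N q : ℕ) : ℝ := if q ≤ N then ((N : ℝ) - q) ^ 2 / q else 0

/-- The position on the line, as a function of the number `q` of steps from the end. -/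
noncomputable def G (n N q : ℕ) : ℝ := 2 * (n : ℝ) - 2 * q + bump N q

lemma bump_nonneg (N q : ℕ) : 0 ≤ bump N q := by
  unfold bump
  split_ifs
  · positivity
  · exact le_rfl

lemma bump_eq_zero {N q : ℕ} (h : N ≤ q) : bump N q = 0 := by
  unfold bump
  split_ifs with h1
  · have : q = N := le_antisymm h1 h
    subst this
    simp
  · rfl

lemma bump_eq {N q : ℕ} (h : q ≤ N) : bump N q = ((N : ℝ) - q) ^ 2 / q := by
  simp [bump, h]

lemma bump_le (N q : ℕ) : bump N q ≤ ((N : ℝ) - q) ^ 2 / q := by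
  unfold bump
  split_ifs
  · exact le_rfl
  · positivity

lemma bump_anti {N q q' : ℕ} (hq : 1 ≤ q) (h : q ≤ q') : bump N q' ≤ bump N q := by
  rcases le_or_gt q' N with h1 | h1
  · rw [bump_eq h1, bump_eq (h.trans h1)]
    have e1 : (1 : ℝ) ≤ q := by exact_mod_cast hq
    have e2 : (q : ℝ) ≤ q' := by exact_mod_cast h
    have e3 : (q' : ℝ) ≤ N := by exact_mod_cast h1
    apply div_le_div₀ (by positivity) _ (by linarith) e2
    apply pow_le_pow_left₀ <;> linarith
  · rw [bump_eq_zero h1.le]
    exact bump_nonneg _ _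

lemma G_anti {n N q q' : ℕ} (hq : 1 ≤ q) (h : q ≤ q') :
    G n N q' + 2 * ((q' : ℝ) - q) ≤ G n N q := by
  unfold G
  have := bump_anti (N := N) hq h
  linarith

lemma bump_convex {N a s : ℕ} (hs : s < a) :
    2 * bump N a ≤ bump N (a - s) + bump N (a + s) := by
  rcases le_or_gt N a with h1 | h1
  · rw [bump_eq_zero h1]
    have := bump_nonneg N (a - s)
    have := bump_nonneg N (a + s)
    linarith
  · have hA : (0 : ℝ) < a := by
      have : 0 < a := by omega
      exact_mod_cast this
    have hSA : (s : ℝ) < a := by exact_mod_cast hs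
    have hAN : (a : ℝ) < N := by exact_mod_cast h1
    have hS : (0 : ℝ) ≤ s := Nat.cast_nonneg s
    rw [bump_eq h1.le, bump_eq (show a - s ≤ N by omega), Nat.cast_sub hs.le]
    rcases le_or_gt (a + s) N with h2 | h2
    · rw [bump_eq h2]
      push_cast
      have key : ((N : ℝ) - (a - s)) ^ 2 / (a - s) + ((N : ℝ) - (a + s)) ^ 2 / (a + s)
          - 2 * (((N : ℝ) - a) ^ 2 / a) = 2 * N ^ 2 * s ^ 2 / (a * ((a - s) * (a + s))) := by
        have e1 : (a : ℝ) - s ≠ 0 := by linarith
        have e2 : (a : ℝ) + s ≠ 0 := by linarith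
        field_simp
        ring
      have : 0 ≤ 2 * (N : ℝ) ^ 2 * s ^ 2 / (a * ((a - s) * (a + s))) := by
        apply div_nonneg (by positivity)
        apply mul_nonneg hA.le
        apply mul_nonneg <;> linarith
      linarith
    · have h3 := bump_nonneg N (a + s)
      have h2' : (N : ℝ) < a + s := by exact_mod_cast h2
      have : 2 * (((N : ℝ) - a) ^ 2 / a) ≤ ((N : ℝ) - (a - s)) ^ 2 / (a - s) := by
        rw [← mul_div_assoc]
        apply div_le_div₀ (by positivity) _ (by linarith) (by linarith)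
        nlinarith
      linarith

/-- The second difference is at most `2`, or the slope is already large. -/
lemma bump_second {N a s : ℕ} {L : ℝ} (hL : 1 ≤ L) (hN : 2 * L ^ 2 ≤ N) (hs1 : 1 ≤ s)
    (hs : s < a) :
    bump N (a - s) + bump N (a + s) - 2 * bump N a ≤ 2 ∨
      L - 1 ≤ 2 * s + bump N a - bump N (a + s) := by
  have hA : (0 : ℝ) < a := by
    have : 0 < a := by omega
    exact_mod_cast this
  have hSA : (s : ℝ) < a := by exact_mod_cast hs
  have hS : (1 : ℝ) ≤ s := by exact_mod_cast hs1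
  rcases le_or_gt a N with h1 | h1
  · have hAN : (a : ℝ) ≤ N := by exact_mod_cast h1
    by_contra hcon
    rw [not_or, not_le, not_le] at hcon
    obtain ⟨hc1, hc2⟩ := hcon
    have hle := bump_le N (a + s)
    rw [bump_eq h1] at hc1 hc2
    rw [bump_eq (show a - s ≤ N by omega), Nat.cast_sub hs.le] at hc1
    push_cast at hle
    have key : ((N : ℝ) - (a - s)) ^ 2 / (a - s) + ((N : ℝ) - (a + s)) ^ 2 / (a + s)
        - 2 * (((N : ℝ) - a) ^ 2 / a) = 2 * (N ^ 2 * s ^ 2) / (a * ((a - s) * (a + s))) := by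
      have e1 : (a : ℝ) - s ≠ 0 := by linarith
      have e2 : (a : ℝ) + s ≠ 0 := by linarith
      field_simp
      ring
    have key2 : 2 * (s : ℝ) + ((N : ℝ) - a) ^ 2 / a - ((N : ℝ) - (a + s)) ^ 2 / (a + s)
        = s + N ^ 2 * s / (a * (a + s)) := by
      have e2 : (a : ℝ) + s ≠ 0 := by linarith
      field_simp
      ring
    have k1 : (2 : ℝ) < 2 * (N ^ 2 * s ^ 2) / (a * ((a - s) * (a + s))) := by linarith
    have k2 : (N : ℝ) ^ 2 * s / (a * (a + s)) < L - 1 := by linarith
    have p1 : (0 : ℝ) < a * ((a - s) * (a + s)) := by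
      apply mul_pos hA
      apply mul_pos <;> linarith
    have p2 : (0 : ℝ) < a * (a + s) := by
      apply mul_pos hA
      linarith
    rw [lt_div_iff₀ p1] at k1
    rw [div_lt_iff₀ p2] at k2
    -- `L * s ≤ a`
    have h3 : L * s ≤ a := by
      by_contra h4
      rw [not_le] at h4
      have h5 : (N : ℝ) ^ 2 * a ≤ N ^ 2 * (L * s) := by
        apply mul_le_mul_of_nonneg_left h4.le
        positivity
      have h6 : (N : ℝ) ^ 2 * (L * s) ≤ L * ((L - 1) * (a * (a + s))) := by
        have : (N : ℝ) ^ 2 * (L * s) = L * (N ^ 2 * s) := by ring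
        rw [this]
        apply mul_le_mul_of_nonneg_left k2.le
        linarith
      have h7 : (N : ℝ) ^ 2 * a ≤ (L * (L - 1) * (a + s)) * a := by
        calc (N : ℝ) ^ 2 * a ≤ L * ((L - 1) * (a * (a + s))) := h5.trans h6
          _ = _ := by ring
      have h8 : (N : ℝ) ^ 2 ≤ L * (L - 1) * (a + s) := le_of_mul_le_mul_right h7 hA
      have h9 : L * (L - 1) * (a + s) ≤ L * (L - 1) * (2 * N) := by
        apply mul_le_mul_of_nonneg_left
        · linarith
        · apply mul_nonneg <;> linarith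
      have hNpos : (0 : ℝ) < N := by nlinarith
      have h10 : (N : ℝ) * N ≤ (2 * (L * (L - 1))) * N := by nlinarith
      have h11 : (N : ℝ) ≤ 2 * (L * (L - 1)) := le_of_mul_le_mul_right h10 hNpos
      nlinarith
    have h4 : (L - 1) * s ≤ a - s := by linarith
    have h5 : (N : ℝ) ^ 2 * s * s ≤ (L - 1) * (a * (a + s)) * s := by
      apply mul_le_mul_of_nonneg_right k2.le
      linarith
    have h6 : (L - 1) * (a * (a + s)) * s ≤ (a - s) * (a * (a + s)) := by
      have : (L - 1) * ((a : ℝ) * (a + s)) * s = ((L - 1) * s) * (a * (a + s)) := by ring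
      rw [this]
      exact mul_le_mul_of_nonneg_right h4 p2.le
    nlinarith
  · have hAN : (N : ℝ) < a := by exact_mod_cast h1
    rw [bump_eq_zero h1.le, bump_eq_zero (show N ≤ a + s by omega)]
    rcases le_or_gt (L - 1) (2 * s) with h2 | h2
    · right
      linarith
    · left
      have hle := bump_le N (a - s)
      rcases le_or_gt N (a - s) with h3 | h3
      · rw [bump_eq_zero h3]
        norm_num
      · have h3' : a < N + s := by omega
        have h3'' : (a : ℝ) < N + s := by exact_mod_cast h3'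
        rw [Nat.cast_sub hs.le] at hle
        have : ((N : ℝ) - (a - s)) ^ 2 / (a - s) ≤ 2 := by
          rw [div_le_iff₀ (by linarith)]
          nlinarith
        linarith

lemma G_double {n N a : ℕ} {L : ℝ} (hL : 1 ≤ L) (hN : 2 * L ^ 2 ≤ N) (ha : 1 ≤ a) :
    L - 1 ≤ G n N a - G n N (2 * a) := by
  have hA : (1 : ℝ) ≤ a := by exact_mod_cast ha
  unfold G
  push_cast
  rcases le_or_gt a N with h1 | h1
  · have hAN : (a : ℝ) ≤ N := by exact_mod_cast h1
    have hle := bump_le N (2 * a)
    rw [bump_eq h1]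
    push_cast at hle
    have key : ((N : ℝ) - a) ^ 2 / a - ((N : ℝ) - 2 * a) ^ 2 / (2 * a)
        = N ^ 2 / (2 * a) - a := by
      field_simp
      ring
    have k2 : (N : ℝ) / 2 ≤ N ^ 2 / (2 * a) := by
      rw [div_le_div_iff₀ (by norm_num) (by linarith)]
      nlinarith
    nlinarith
  · have hAN : (N : ℝ) < a := by exact_mod_cast h1
    rw [bump_eq_zero h1.le, bump_eq_zero (show N ≤ 2 * a by omega)]
    nlinarith

/-! ### The rankings -/

/-- The ranking key of the agent `i` for the item `j`. -/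
def key (i j : ℕ) : ℕ := if j ≤ i then 2 * (i - j) + 1 else 2 * (j - i - 1)

lemma key_left {i j : ℕ} (h : j ≤ i) : key i j = 2 * (i - j) + 1 := by simp [key, h]

lemma key_right {i j : ℕ} (h : i < j) : key i j = 2 * (j - i - 1) := by
  simp [key, Nat.not_le.mpr h]

lemma min_abs_le {L x y : ℝ} (hx : 0 ≤ x) (h : x ≤ y ∨ L ≤ y) : min L |x| ≤ min L |y| := by
  rw [abs_of_nonneg hx]
  rcases h with h | h
  · exact min_le_min_left _ (h.trans (le_abs_self y))
  · rw [min_eq_left (h.trans (le_abs_self y))]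
    exact min_le_left _ _

/-- Consistency of the rankings of the lower half with the first metric. -/
lemma caseA {n N : ℕ} {L : ℝ} (hL : 1 ≤ L) (hN : 2 * L ^ 2 ≤ N) (hn : 3 * N ≤ n)
    {i j j' : ℕ} (hi : 2 * i + 1 ≤ n) (hj : j < n) (hj' : j' < n) (h : key i j ≤ key i j') :
    min L |G n N (n - i) + 1 - G n N (n - j)| ≤ min L |G n N (n - i) + 1 - G n N (n - j')| := by
  have hNL : L ≤ N := by nlinarith
  have gi : G n N (n - i) = 2 * i := by
    unfold G
    rw [bump_eq_zero (by omega), Nat.cast_sub (by omega)]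
    ring
  have gl : ∀ k : ℕ, k ≤ i → G n N (n - k) = 2 * k := by
    intro k hk
    unfold G
    rw [bump_eq_zero (by omega), Nat.cast_sub (by omega)]
    ring
  have gr : ∀ k : ℕ, k < n → G n N (n - k) = 2 * k + bump N (n - k) := by
    intro k hk
    unfold G
    rw [Nat.cast_sub (by omega)]
    ring
  rw [gi]
  rcases le_or_gt j i with h1 | h1 <;> rcases le_or_gt j' i with h2 | h2
  · rw [key_left h1, key_left h2] at h
    have h3 : j' ≤ j := by omega
    have h3' : (j' : ℝ) ≤ j := by exact_mod_cast h3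
    have h1' : (j : ℝ) ≤ i := by exact_mod_cast h1
    rw [gl j h1, gl j' h2]
    apply min_abs_le (by linarith)
    left
    linarith
  · rw [key_left h1, key_right h2] at h
    have h3 : 2 * i + 1 ≤ j + j' := by omega
    have h3' : 2 * (i : ℝ) + 1 ≤ j + j' := by exact_mod_cast h3
    have h1' : (j : ℝ) ≤ i := by exact_mod_cast h1
    rw [gl j h1, gr j' hj']
    have hb := bump_nonneg N (n - j')
    rw [abs_sub_comm _ (2 * (j' : ℝ) + _)]
    apply min_abs_le (by linarith)
    left
    linarith
  · rw [key_right h1, key_left h2] at h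
    have h3 : j + j' ≤ 2 * i + 1 := by omega
    have h3' : (j : ℝ) + j' ≤ 2 * i + 1 := by exact_mod_cast h3
    have h1' : (i : ℝ) + 1 ≤ j := by exact_mod_cast h1
    have h2' : (j' : ℝ) ≤ i := by exact_mod_cast h2
    rw [gr j hj, gl j' h2]
    have hb := bump_nonneg N (n - j)
    rw [abs_sub_comm _ (2 * (j : ℝ) + _)]
    apply min_abs_le (by linarith)
    rcases le_or_gt N (n - j) with h4 | h4
    · rw [bump_eq_zero h4]
      left
      linarith
    · right
      have h5 : n < N + j := by omega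
      have h6 : n + N ≤ 2 * i + 1 + n - j' + (n - j') := by omega
      have h7 : N ≤ 2 * i + 1 - 2 * j' := by omega
      have h8 : (N : ℝ) + 2 * j' ≤ 2 * i + 1 := by
        have : N + 2 * j' ≤ 2 * i + 1 := by omega
        exact_mod_cast this
      linarith
  · rw [key_right h1, key_right h2] at h
    have h3 : j ≤ j' := by omega
    have h1' : (i : ℝ) + 1 ≤ j := by exact_mod_cast h1
    have h3' : (j : ℝ) ≤ j' := by exact_mod_cast h3
    rw [gr j hj, gr j' hj']
    have hb := bump_nonneg N (n - j)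
    have hb' := bump_anti (N := N) (q := n - j') (q' := n - j) (by omega) (by omega)
    rw [abs_sub_comm _ (2 * (j : ℝ) + _), abs_sub_comm _ (2 * (j' : ℝ) + _)]
    apply min_abs_le (by linarith)
    left
    linarith

/-- The position of the item `j` in the second metric. -/
noncomputable def P (n N j : ℕ) : ℝ := if j = 0 then 0 else G n N j

/-- Consistency of the rankings of the lower half with the second metric. -/
lemma caseB {n N : ℕ} {L : ℝ} (hL : 1 ≤ L) (hN : 2 * L ^ 2 ≤ N) (hn : 3 * N ≤ n)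
    {i j j' : ℕ} (hi : 2 * i + 1 ≤ n) (h : key i j ≤ key i j') :
    min L |G n N (i + 1) + 1 - P n N j| ≤ min L |G n N (i + 1) + 1 - P n N j'| := by
  have hNL : L ≤ N := by nlinarith
  have hn' : 3 * (N : ℝ) ≤ n := by exact_mod_cast hn
  have hi' : 2 * (i : ℝ) + 1 ≤ n := by exact_mod_cast hi
  have hz : L ≤ G n N (i + 1) + 1 := by
    unfold G
    have := bump_nonneg N (i + 1)
    push_cast
    linarith
  rcases Nat.eq_zero_or_pos j' with rfl | hj'
  · rw [show P n N 0 = 0 by simp [P], sub_zero, min_eq_left (hz.trans (le_abs_self _))]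
    exact min_le_left _ _
  have hP' : P n N j' = G n N j' := by simp [P, hj'.ne']
  rw [hP']
  rcases Nat.eq_zero_or_pos j with rfl | hj
  · rw [key_left (Nat.zero_le _)] at h
    rcases le_or_gt j' i with h2 | h2
    · rw [key_left h2] at h
      omega
    · rw [key_right h2] at h
      have h3 : 2 * (i + 1) ≤ j' := by omega
      have h4 := G_double (n := n) (a := i + 1) hL hN (by omega)
      have h5 := G_anti (n := n) (N := N) (q := 2 * (i + 1)) (q' := j') (by omega) h3
      have h3' : ((2 * (i + 1) : ℕ) : ℝ) ≤ j' := by exact_mod_cast h3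
      have h6 : L ≤ G n N (i + 1) + 1 - G n N j' := by linarith
      rw [min_eq_left (h6.trans (le_abs_self _))]
      exact min_le_left _ _
  have hP : P n N j = G n N j := by simp [P, hj.ne']
  rw [hP]
  rcases le_or_gt j i with h1 | h1 <;> rcases le_or_gt j' i with h2 | h2
  · rw [key_left h1, key_left h2] at h
    have h3 : j' ≤ j := by omega
    have h3' : (j' : ℝ) ≤ j := by exact_mod_cast h3
    have h1' : (j : ℝ) + 1 ≤ ((i + 1 : ℕ) : ℝ) := by exact_mod_cast Nat.succ_le_succ h1
    have e1 := G_anti (n := n) (N := N) (q := j') (q' := j) hj' h3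
    have e2 := G_anti (n := n) (N := N) (q := j) (q' := i + 1) hj (by omega)
    rw [abs_sub_comm _ (G n N j), abs_sub_comm _ (G n N j')]
    apply min_abs_le (by linarith)
    left
    linarith
  · rw [key_left h1, key_right h2] at h
    obtain ⟨s, hs1, hs2, rfl⟩ : ∃ s, 1 ≤ s ∧ s < i + 1 ∧ j = (i + 1) - s :=
      ⟨i + 1 - j, by omega, by omega, by omega⟩
    have h3 : i + 1 + s ≤ j' := by omega
    have h3' : ((i + 1 + s : ℕ) : ℝ) ≤ j' := by exact_mod_cast h3
    have e1 := G_anti (n := n) (N := N) (q := i + 1 + s) (q' := j') (by omega) h3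
    have e2 := G_anti (n := n) (N := N) (q := i + 1 - s) (q' := i + 1) hj (by omega)
    have hs1' : (1 : ℝ) ≤ s := by exact_mod_cast hs1
    have hc : ((i + 1 - s : ℕ) : ℝ) = (i : ℝ) + 1 - s := by
      rw [Nat.cast_sub hs2.le]
      push_cast
      ring
    have e3 := bump_second (a := i + 1) hL hN hs1 hs2
    rw [hc] at e2
    push_cast at e2 h3' e1
    rw [abs_sub_comm _ (G n N (i + 1 - s))]
    apply min_abs_le (by linarith)
    unfold G at e1 ⊢
    rw [hc]
    push_cast at e1 ⊢
    rcases e3 with e3 | e3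
    · left
      linarith
    · right
      linarith
  · rw [key_right h1, key_left h2] at h
    obtain ⟨s, hs1, hs2, rfl⟩ : ∃ s, 1 ≤ s ∧ s < i + 1 ∧ j' = (i + 1) - s :=
      ⟨i + 1 - j', by omega, by omega, by omega⟩
    have h3 : j ≤ i + 1 + s - 1 := by omega
    have h3' : (j : ℝ) ≤ ((i + 1 + s - 1 : ℕ) : ℝ) := by exact_mod_cast h3
    have e1 := G_anti (n := n) (N := N) (q := j) (q' := i + 1 + s - 1) hj h3
    have e2 := G_anti (n := n) (N := N) (q := i + 1) (q' := j) (by omega) (by omega)
    have h1' : ((i + 1 : ℕ) : ℝ) ≤ j := by exact_mod_cast h1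
    have hc : ((i + 1 - s : ℕ) : ℝ) = (i : ℝ) + 1 - s := by
      rw [Nat.cast_sub hs2.le]
      push_cast
      ring
    have hc2 : ((i + 1 + s - 1 : ℕ) : ℝ) = (i : ℝ) + s := by
      rw [show i + 1 + s - 1 = i + s by omega]
      push_cast
      ring
    have e3 := bump_convex (N := N) (a := i + 1) hs2
    have e4 := bump_anti (N := N) (q := i + 1 + s - 1) (q' := i + 1 + s) (by omega) (by omega)
    have hjr : (1 : ℝ) ≤ s := by exact_mod_cast hs1
    rw [abs_sub_comm _ (G n N (i + 1 - s))]
    apply min_abs_le (by linarith)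
    left
    unfold G at e1 ⊢
    rw [hc]
    rw [hc2] at e1 h3'
    push_cast at e1 ⊢
    linarith
  · rw [key_right h1, key_right h2] at h
    have h3 : j ≤ j' := by omega
    have h3' : (j : ℝ) ≤ j' := by exact_mod_cast h3
    have h1' : ((i + 1 : ℕ) : ℝ) ≤ j := by exact_mod_cast h1
    have e1 := G_anti (n := n) (N := N) (q := j) (q' := j') hj h3
    have e2 := G_anti (n := n) (N := N) (q := i + 1) (q' := j) (by omega) (by omega)
    apply min_abs_le (by linarith)
    left
    linarith

/-! ### Assembly -/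

section Assembly

variable {n : ℕ}

/-- Positions in the first metric. -/
noncomputable def pos0 (n N : ℕ) : Fin n ⊕ Fin n → ℝ
  | Sum.inl i => G n N (n - i) + 1
  | Sum.inr j => G n N (n - j)

/-- Positions in the second metric. -/
noncomputable def pos1 (n N : ℕ) : Fin n ⊕ Fin n → ℝ
  | Sum.inl i => G n N (i + 1) + 1
  | Sum.inr j => P n N j

/-- The key of the full profile. -/
def fullKey (n : ℕ) [NeZero n] (i j : Fin n) : ℕ :=
  if 2 * (i : ℕ) + 1 ≤ n then key i j else key (Fin.rev i : Fin n) (-j : Fin n)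

lemma G_top {n N : ℕ} (h : N ≤ n) : G n N n = 0 := by
  simp [G, bump_eq_zero h]

lemma pos0_rev {N : ℕ} (i : Fin n) :
    pos0 n N (Sum.inl i) = pos1 n N (Sum.inl (Fin.rev i)) := by
  have hi := i.isLt
  have : n - (i : ℕ) = n - (i + 1) + 1 := by omega
  simp only [pos0, pos1, Fin.val_rev]
  rw [this]

lemma pos1_rev {N : ℕ} (i : Fin n) :
    pos1 n N (Sum.inl i) = pos0 n N (Sum.inl (Fin.rev i)) := by
  rw [pos0_rev, Fin.rev_rev]

lemma pos0_neg [NeZero n] {N : ℕ} (hN : N ≤ n) (j : Fin n) :
    pos0 n N (Sum.inr j) = pos1 n N (Sum.inr (-j)) := by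
  have hj := j.isLt
  simp only [pos0, pos1, P, Fin.val_neg']
  rcases Nat.eq_zero_or_pos (j : ℕ) with h | h
  · rw [h]
    simp [G_top hN]
  · rw [Nat.mod_eq_of_lt (by omega), if_neg (by omega)]

lemma pos1_neg [NeZero n] {N : ℕ} (hN : N ≤ n) (j : Fin n) :
    pos1 n N (Sum.inr j) = pos0 n N (Sum.inr (-j)) := by
  rw [pos0_neg hN, neg_neg]

/-- The truncated line metric. -/
noncomputable def dist' (L : ℝ) (pos : Fin n ⊕ Fin n → ℝ) : Fin n ⊕ Fin n → Fin n ⊕ Fin n → ℝ :=
  fun x y => min L |pos x - pos y|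

lemma consistent0 [NeZero n] {N : ℕ} {L : ℝ} (hL : 1 ≤ L) (hN : 2 * L ^ 2 ≤ N)
    (hn : 3 * N ≤ n) (σ : Profile n)
    (hσ : ∀ i b b', σ i b < σ i b' → fullKey n i b ≤ fullKey n i b') :
    Consistent σ (dist' L (pos0 n N)) := by
  refine ⟨fun x => ?_, fun x y => ?_, fun x y z => ?_, fun i b b' h => ?_⟩
  · simp only [dist', sub_self, abs_zero]
    exact min_eq_right (by linarith)
  · simp only [dist']
    rw [abs_sub_comm]
  · exact trunc_triangle L _ _ _ (by linarith)
  · have hk := hσ i b b' h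
    unfold fullKey at hk
    simp only [dist']
    split_ifs at hk with hi
    · exact caseA hL hN hn hi b.isLt b'.isLt hk
    · rw [pos0_rev, pos0_neg (by omega), pos0_neg (by omega)]
      have hi' : 2 * ((Fin.rev i : Fin n) : ℕ) + 1 ≤ n := by
        rw [Fin.val_rev]
        have := i.isLt
        omega
      exact caseB hL hN hn hi' hk

lemma consistent1 [NeZero n] {N : ℕ} {L : ℝ} (hL : 1 ≤ L) (hN : 2 * L ^ 2 ≤ N)
    (hn : 3 * N ≤ n) (σ : Profile n)
    (hσ : ∀ i b b', σ i b < σ i b' → fullKey n i b ≤ fullKey n i b') :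
    Consistent σ (dist' L (pos1 n N)) := by
  refine ⟨fun x => ?_, fun x y => ?_, fun x y z => ?_, fun i b b' h => ?_⟩
  · simp only [dist', sub_self, abs_zero]
    exact min_eq_right (by linarith)
  · simp only [dist']
    rw [abs_sub_comm]
  · exact trunc_triangle L _ _ _ (by linarith)
  · have hk := hσ i b b' h
    unfold fullKey at hk
    simp only [dist']
    split_ifs at hk with hi
    · exact caseB hL hN hn hi hk
    · rw [pos1_rev, pos1_neg (by omega), pos1_neg (by omega)]
      have hi' : 2 * ((Fin.rev i : Fin n) : ℕ) + 1 ≤ n := by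
        rw [Fin.val_rev]
        have := i.isLt
        omega
      exact caseA hL hN hn hi' (Fin.isLt _) (Fin.isLt _) hk

/-- The main lower bound. -/
lemma lower [NeZero n] {N : ℕ} {L : ℝ} (hL : 1 ≤ L) (hN : 2 * L ^ 2 ≤ N)
    (hn : 3 * N ≤ n) (f : Mechanism) (C : ℝ) (hf : DistortionAtMost f n C) : L ≤ C := by
  have hn1 : 1 ≤ n := NeZero.one_le
  have hC : 1 ≤ C := one_le hn1 hf
  have hNL : L ≤ N := by nlinarith
  have hnL : 3 * (N : ℝ) ≤ n := by exact_mod_cast hn
  choose ρ hρ using fun i : Fin n => exists_ranking (fullKey n i)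
  have opt0 : OPT (dist' L (pos0 n N)) ≤ 1 := by
    refine (OPT_le _ 1).trans (cost_le _ _ _ fun a => ?_)
    simp only [dist', pos0, Equiv.Perm.coe_one, id_eq]
    refine (min_le_right _ _).trans ?_
    rw [add_sub_cancel_left]
    simp
  have opt1 : OPT (dist' L (pos1 n N)) ≤ 1 := by
    refine (OPT_le _ (Equiv.addRight (1 : Fin n))).trans (cost_le _ _ _ fun a => ?_)
    simp only [dist', Equiv.coe_addRight]
    refine (min_le_right _ _).trans ?_
    have ha := a.isLt
    have hval : ((a + 1 : Fin n) : ℕ) = ((a : ℕ) + 1) % n := by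
      rw [Fin.val_add, Fin.val_one', Nat.add_mod_mod]
    simp only [pos1, P, hval]
    rcases Nat.lt_or_ge ((a : ℕ) + 1) n with h | h
    · rw [Nat.mod_eq_of_lt h, if_neg (by omega), add_sub_cancel_left]
      simp
    · have h' : (a : ℕ) + 1 = n := by omega
      rw [h', Nat.mod_self, if_pos rfl, G_top (by omega)]
      simp
  set a : Fin n := (f n ρ)⁻¹ 0 with ha
  have hMa : (f n ρ) a = 0 := by simp [ha]
  have hai := a.isLt
  rcases le_or_gt (2 * (a : ℕ) + 1) n with h | h
  · have h1 := hf ρ _ (consistent1 hL hN hn ρ hρ)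
    have h2 := le_cost (f n ρ) (dist' L (pos1 n N)) a
    rw [hMa] at h2
    have h3 : dist' L (pos1 n N) (Sum.inl a) (Sum.inr 0) = L := by
      simp only [dist', pos1, P, Fin.val_zero, if_true, sub_zero]
      apply min_eq_left
      refine le_trans ?_ (le_abs_self _)
      unfold G
      have := bump_nonneg N (a + 1)
      have h' : 2 * ((a : ℕ) : ℝ) + 1 ≤ n := by exact_mod_cast h
      push_cast
      linarith
    rw [h3] at h2
    have : C * OPT (dist' L (pos1 n N)) ≤ C * 1 := mul_le_mul_of_nonneg_left opt1 (by linarith)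
    linarith
  · have h1 := hf ρ _ (consistent0 hL hN hn ρ hρ)
    have h2 := le_cost (f n ρ) (dist' L (pos0 n N)) a
    rw [hMa] at h2
    have h3 : dist' L (pos0 n N) (Sum.inl a) (Sum.inr 0) = L := by
      simp only [dist', pos0, Fin.val_zero, Nat.sub_zero]
      rw [G_top (by omega), sub_zero]
      apply min_eq_left
      refine le_trans ?_ (le_abs_self _)
      unfold G
      have := bump_nonneg N (n - a)
      have h' : (n : ℝ) ≤ 2 * ((a : ℕ) : ℝ) + 1 := by exact_mod_cast h.le
      rw [Nat.cast_sub hai.le]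
      linarith
    rw [h3] at h2
    have : C * OPT (dist' L (pos0 n N)) ≤ C * 1 := mul_le_mul_of_nonneg_left opt0 (by linarith)
    linarith

end Assembly

/-- Every deterministic matching mechanism has max-distortion at least `√(n/8)` on `n` agents, for
every `n ≥ 1`. In particular no deterministic mechanism has bounded max-distortion. -/
theorem result (f : Mechanism) (n : ℕ) (hn : 1 ≤ n) (C : ℝ) (hC : DistortionAtMost f n C) :
    √((n : ℝ) / 8) ≤ C := by
  have : NeZero n := ⟨by omega⟩
  have h1 : 1 ≤ C := one_le hn hC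
  rw [Real.sqrt_le_left (by linarith), div_le_iff₀ (by norm_num)]
  rcases Nat.lt_or_ge n 9 with h | h
  · have h' : (n : ℝ) ≤ 8 := by exact_mod_cast Nat.lt_succ_iff.mp h
    nlinarith
  · obtain ⟨N, hN1, hN2⟩ : ∃ N, 3 * N ≤ n ∧ n ≤ 3 * N + 2 := ⟨n / 3, by omega, by omega⟩
    have hN3 : 2 ≤ N := by omega
    have hN3' : (2 : ℝ) ≤ N := by exact_mod_cast hN3
    have hL : 1 ≤ √((N : ℝ) / 2) := by
      rw [Real.one_le_sqrt]
      linarith
    have hsq : √((N : ℝ) / 2) ^ 2 = N / 2 := Real.sq_sqrt (by positivity)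
    have h2 := lower (n := n) (N := N) (L := √((N : ℝ) / 2)) hL (by rw [hsq]; linarith) hN1 f C hC
    have h3 : (N : ℝ) / 2 ≤ C ^ 2 := by
      rw [← hsq]
      exact pow_le_pow_left₀ (Real.sqrt_nonneg _) h2 2
    have hN2' : (n : ℝ) ≤ 3 * N + 2 := by exact_mod_cast hN2
    nlinarith

end Pool.Agent.Results.MP_b944bf_lc.Unbounded
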